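import Pool.Agent.Helper61_LT.Stmts

/-!
# LT, module LST: the list complex
-/

set_option autoImplicit false

namespace Pool.Agent.LT.H74

open Pool.Agent.LT Finsupp

section lin

variable {A B D : Type}

theorem lin_eq (F : A → (B →₀ ℤ)) (z : A →₀ ℤ) : lin F z = Finsupp.linearCombination ℤ F z :=
  (Finsupp.linearCombination_apply ℤ z).symm

@[simp] theorem lin_zero (F : A → (B →₀ ℤ)) : lin F 0 = 0 := by
  rw [lin_eq, map_zero]

theorem lin_add (F : A → (B →₀ ℤ)) (z w : A →₀ ℤ) : lin F (z + w) = lin F z + lin F w := by
  simp only [lin_eq, map_add]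

theorem lin_sub (F : A → (B →₀ ℤ)) (z w : A →₀ ℤ) : lin F (z - w) = lin F z - lin F w := by
  simp only [lin_eq, map_sub]

theorem lin_neg (F : A → (B →₀ ℤ)) (z : A →₀ ℤ) : lin F (-z) = -lin F z := by
  simp only [lin_eq, map_neg]

theorem lin_smul (F : A → (B →₀ ℤ)) (k : ℤ) (z : A →₀ ℤ) : lin F (k • z) = k • lin F z := by
  simp only [lin_eq, map_smul]

@[simp] theorem lin_single (F : A → (B →₀ ℤ)) (a : A) (k : ℤ) :
    lin F (Finsupp.single a k) = k • F a := by
  rw [lin_eq, Finsupp.linearCombination_single]

theorem lin_sum {ι : Type} (s : Finset ι) (F : A → (B →₀ ℤ)) (z : ι → (A →₀ ℤ)) :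
    lin F (∑ i ∈ s, z i) = ∑ i ∈ s, lin F (z i) := by
  simp only [lin_eq, map_sum]

theorem lin_mapDomain (F : B → (D →₀ ℤ)) (g : A → B) (z : A →₀ ℤ) :
    lin F (z.mapDomain g) = lin (fun a => F (g a)) z := by
  rw [lin_eq, lin_eq, Finsupp.linearCombination_mapDomain]
  rfl

theorem mapDomain_lin (F : A → (B →₀ ℤ)) (g : B → D) (z : A →₀ ℤ) :
    (lin F z).mapDomain g = lin (fun a => (F a).mapDomain g) z := by
  induction z using Finsupp.induction_linear with
  | zero => simp
  | add z w hz hw => rw [lin_add, lin_add, Finsupp.mapDomain_add, hz, hw]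
  | single a k => rw [lin_single, lin_single, Finsupp.mapDomain_smul]

theorem lin_lin (F : B → (D →₀ ℤ)) (g : A → (B →₀ ℤ)) (z : A →₀ ℤ) :
    lin F (lin g z) = lin (fun a => lin F (g a)) z := by
  induction z using Finsupp.induction_linear with
  | zero => simp
  | add z w hz hw => rw [lin_add, lin_add, lin_add, hz, hw]
  | single a k => rw [lin_single, lin_single, lin_smul]

theorem lin_fun_sub (F H : A → (B →₀ ℤ)) (z : A →₀ ℤ) :
    lin (fun a => F a - H a) z = lin F z - lin H z := by
  induction z using Finsupp.induction_linear with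
  | zero => simp
  | add z w hz hw => rw [lin_add, lin_add, lin_add, hz, hw]; abel
  | single a k => rw [lin_single, lin_single, lin_single, smul_sub]

theorem lin_fun_single (g : A → B) (z : A →₀ ℤ) :
    lin (fun a => Finsupp.single (g a) 1) z = z.mapDomain g := by
  induction z using Finsupp.induction_linear with
  | zero => simp
  | add z w hz hw => rw [lin_add, hz, hw, Finsupp.mapDomain_add]
  | single a k => rw [lin_single, Finsupp.mapDomain_single, Finsupp.smul_single, smul_eq_mul,
      mul_one]

theorem lin_id (z : A →₀ ℤ) : lin (fun a => Finsupp.single a 1) z = z := by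
  have h := lin_fun_single (fun a : A => a) z
  rw [h]
  exact Finsupp.mapDomain_id

theorem lin_congr {F H : A → (B →₀ ℤ)} {z : A →₀ ℤ} (h : ∀ a ∈ z.support, F a = H a) :
    lin F z = lin H z := by
  unfold lin
  exact Finsupp.sum_congr fun a ha => by rw [h a ha]

end lin

/-! ### The sum of the absolute values -/

section nrm

variable {A B : Type}

/-- The sum of the absolute values of the coefficients. -/
noncomputable def nrm (z : A →₀ ℤ) : ℤ := z.sum fun _ k => |k|

theorem nrm_eq (z : A →₀ ℤ) (s : Finset A) (h : z.support ⊆ s) : nrm z = ∑ a ∈ s, |z a| := by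
  unfold nrm
  exact Finsupp.sum_of_support_subset z h _ (by simp)

@[simp] theorem nrm_zero : nrm (0 : A →₀ ℤ) = 0 := by
  simp [nrm]

theorem nrm_single (a : A) (k : ℤ) : nrm (Finsupp.single a k) = |k| := by
  unfold nrm
  rw [Finsupp.sum_single_index (by simp)]

theorem nrm_nonneg (z : A →₀ ℤ) : 0 ≤ nrm z := by
  unfold nrm
  exact Finset.sum_nonneg fun a _ => abs_nonneg _

theorem nrm_neg (z : A →₀ ℤ) : nrm (-z) = nrm z := by
  unfold nrm
  rw [Finsupp.sum_neg_index (by simp)]
  simp

theorem nrm_add_le (z w : A →₀ ℤ) : nrm (z + w) ≤ nrm z + nrm w := by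
  classical
  rw [nrm_eq (z + w) (z.support ∪ w.support) Finsupp.support_add,
    nrm_eq z (z.support ∪ w.support) Finset.subset_union_left,
    nrm_eq w (z.support ∪ w.support) Finset.subset_union_right, ← Finset.sum_add_distrib]
  exact Finset.sum_le_sum fun a _ => abs_add_le _ _

theorem nrm_sub_le (z w : A →₀ ℤ) : nrm (z - w) ≤ nrm z + nrm w := by
  have := nrm_add_le z (-w)
  rwa [nrm_neg, ← sub_eq_add_neg] at this

theorem nrm_sum_le {ι : Type} (s : Finset ι) (z : ι → (A →₀ ℤ)) :
    nrm (∑ i ∈ s, z i) ≤ ∑ i ∈ s, nrm (z i) := by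
  classical
  induction s using Finset.induction_on with
  | empty => simp
  | insert i s hi ih =>
    rw [Finset.sum_insert hi, Finset.sum_insert hi]
    exact (nrm_add_le _ _).trans (by linarith)

theorem nrm_mapDomain_le (f : A → B) (z : A →₀ ℤ) : nrm (z.mapDomain f) ≤ nrm z := by
  unfold Finsupp.mapDomain Finsupp.sum
  refine (nrm_sum_le _ _).trans (le_of_eq ?_)
  simp only [nrm_single]
  rfl

end nrm

/-! ### The module -/

variable {A B : Type}

theorem lbd_nil : lbd ([] : List A) = 0 := rfl

theorem lbd_cons (a : A) (l : List A) :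
    lbd (a :: l) = Finsupp.single l 1 - (lbd l).mapDomain (List.cons a) := rfl

theorem prism_nil (c : A → A) : prism c ([] : List A) = 0 := rfl

theorem prism_cons (c : A → A) (a : A) (l : List A) :
    prism c (a :: l) =
      Finsupp.single (a :: c a :: l.map c) 1 - (prism c l).mapDomain (List.cons a) := rfl

theorem lbd_lbd (l : List A) : lin lbd (lbd l) = 0 := by
  induction l with
  | nil => rw [lbd_nil, lin_zero]
  | cons a l ih =>
    rw [lbd_cons, lin_sub, lin_single, one_smul, lin_mapDomain]
    simp only [lbd_cons]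
    rw [lin_fun_sub, lin_id, ← mapDomain_lin, ih, Finsupp.mapDomain_zero]
    abel

theorem mapDomain_sub' (f : A → B) (z w : A →₀ ℤ) :
    (z - w).mapDomain f = z.mapDomain f - w.mapDomain f :=
  map_sub (Finsupp.mapDomain.addMonoidHom f : (A →₀ ℤ) →+ (B →₀ ℤ)) z w

theorem lbd_map (F : A → B) (l : List A) :
    lbd (l.map F) = (lbd l).mapDomain (List.map F) := by
  induction l with
  | nil => simp [lbd_nil]
  | cons a l ih =>
    rw [List.map_cons, lbd_cons, lbd_cons, ih, mapDomain_sub', Finsupp.mapDomain_single,
      ← Finsupp.mapDomain_comp, ← Finsupp.mapDomain_comp]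
    rfl

theorem prism_map (F : A → B) (c : A → A) (c' : B → B) (l : List A)
    (h : ∀ x ∈ l, F (c x) = c' (F x)) :
    prism c' (l.map F) = (prism c l).mapDomain (List.map F) := by
  induction l with
  | nil => simp [prism_nil]
  | cons a l ih =>
    have h1 : F (c a) = c' (F a) := h a (by simp)
    have h2 : ∀ x ∈ l, F (c x) = c' (F x) := fun x hx => h x (by simp [hx])
    have h3 : (l.map F).map c' = (l.map c).map F := by
      rw [List.map_map, List.map_map]
      exact List.map_congr_left fun x hx => (h2 x hx).symm
    rw [List.map_cons, prism_cons, prism_cons, ih h2, mapDomain_sub', Finsupp.mapDomain_single,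
      ← Finsupp.mapDomain_comp, ← Finsupp.mapDomain_comp, h3, ← h1]
    rfl

theorem prism_eq (c : A → A) (l : List A) :
    lin lbd (prism c l) + lin (prism c) (lbd l) =
      Finsupp.single (l.map c) 1 - Finsupp.single l 1 := by
  induction l with
  | nil => simp [prism_nil, lbd_nil]
  | cons a l ih =>
    have e1 : lin lbd (prism c (a :: l)) =
        Finsupp.single (c a :: l.map c) 1 - (Finsupp.single (a :: l.map c) 1 -
          (lbd l).mapDomain (fun l' => a :: c a :: l'.map c)) -
        (prism c l - (lin lbd (prism c l)).mapDomain (List.cons a)) := by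
      rw [prism_cons, lin_sub, lin_single, one_smul, lin_mapDomain]
      simp only [lbd_cons]
      rw [lin_fun_sub, lin_id, ← mapDomain_lin, mapDomain_sub', Finsupp.mapDomain_single,
        lbd_map, ← Finsupp.mapDomain_comp, ← Finsupp.mapDomain_comp]
      rfl
    have e2 : lin (prism c) (lbd (a :: l)) = prism c l -
        ((lbd l).mapDomain (fun l' => a :: c a :: l'.map c) -
          (lin (prism c) (lbd l)).mapDomain (List.cons a)) := by
      rw [lbd_cons, lin_sub, lin_single, one_smul, lin_mapDomain]
      simp only [prism_cons]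
      rw [lin_fun_sub, ← mapDomain_lin, lin_fun_single]
    have e3 : (lin lbd (prism c l)).mapDomain (List.cons a) +
        (lin (prism c) (lbd l)).mapDomain (List.cons a) =
        Finsupp.single (a :: l.map c) 1 - Finsupp.single (a :: l) 1 := by
      rw [← Finsupp.mapDomain_add, ih, mapDomain_sub', Finsupp.mapDomain_single,
        Finsupp.mapDomain_single]
    rw [e1, e2, List.map_cons]
    have e4 : (lin lbd (prism c l)).mapDomain (List.cons a) =
        Finsupp.single (a :: l.map c) 1 - Finsupp.single (a :: l) 1 -
        (lin (prism c) (lbd l)).mapDomain (List.cons a) := by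
      rw [← e3]
      abel
    rw [e4]
    abel

theorem lbd_support (l : List A) :
    ∀ l' ∈ (lbd l).support, l'.Sublist l ∧ l'.length + 1 = l.length := by
  classical
  induction l with
  | nil => simp [lbd_nil]
  | cons a l ih =>
    intro l' hl'
    rw [lbd_cons] at hl'
    have h1 := Finsupp.support_sub hl'
    rw [Finset.mem_union] at h1
    rcases h1 with h1 | h1
    · have h2 := Finsupp.support_single_subset h1
      rw [Finset.mem_singleton] at h2
      subst h2
      exact ⟨List.sublist_cons_self _ _, rfl⟩
    · have h2 := Finsupp.mapDomain_support h1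
      rw [Finset.mem_image] at h2
      obtain ⟨m, hm, rfl⟩ := h2
      obtain ⟨h3, h4⟩ := ih m hm
      exact ⟨h3.cons_cons a, by simp [h4]⟩

theorem prism_support (c : A → A) (l : List A) :
    ∀ l' ∈ (prism c l).support, l'.length = l.length + 1 ∧
      ∀ x ∈ l', x ∈ l ∨ x ∈ l.map c := by
  classical
  induction l with
  | nil => simp [prism_nil]
  | cons a l ih =>
    intro l' hl'
    rw [prism_cons] at hl'
    have h1 := Finsupp.support_sub hl'
    rw [Finset.mem_union] at h1
    rcases h1 with h1 | h1
    · have h2 := Finsupp.support_single_subset h1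
      rw [Finset.mem_singleton] at h2
      subst h2
      refine ⟨by simp, ?_⟩
      intro x hx
      simp only [List.mem_cons, List.map_cons] at hx ⊢
      tauto
    · have h2 := Finsupp.mapDomain_support h1
      rw [Finset.mem_image] at h2
      obtain ⟨m, hm, rfl⟩ := h2
      obtain ⟨h3, h4⟩ := ih m hm
      refine ⟨by simp [h3], ?_⟩
      intro x hx
      simp only [List.mem_cons, List.map_cons] at hx ⊢
      rcases hx with hx | hx
      · exact Or.inl (Or.inl hx)
      · rcases h4 x hx with h | h
        · exact Or.inl (Or.inr h)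
        · exact Or.inr (Or.inr h)

theorem nrm_lbd (l : List A) : nrm (lbd l) ≤ l.length := by
  induction l with
  | nil => simp [lbd_nil]
  | cons a l ih =>
    rw [lbd_cons]
    refine (nrm_sub_le _ _).trans ?_
    have h1 := nrm_mapDomain_le (List.cons a) (lbd l)
    rw [nrm_single]
    push_cast [List.length_cons]
    rw [abs_one]
    linarith

theorem nrm_prism (c : A → A) (l : List A) : nrm (prism c l) ≤ l.length := by
  induction l with
  | nil => simp [prism_nil]
  | cons a l ih =>
    rw [prism_cons]
    refine (nrm_sub_le _ _).trans ?_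
    have h1 := nrm_mapDomain_le (List.cons a) (prism c l)
    rw [nrm_single]
    push_cast [List.length_cons]
    rw [abs_one]
    linarith

/-- LST -/
theorem lst : LstStmt := fun _ _ =>
  ⟨lbd_lbd, lbd_map, prism_eq, prism_map, lbd_support, prism_support, nrm_lbd, nrm_prism⟩

end Pool.Agent.LT.H74
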