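import Pool.Agent.Helper61_LT.Tools
import Pool.Agent.Helper74_LT.Lst

/-!
# LT, module FMS: the chain map from the finite model to the coarse complex
-/

set_option autoImplicit false

namespace Pool.Agent.LT.H74

open Pool.Agent.LT Finsupp Matrix

section general

variable {A B : Type}

theorem lin_apply [Fintype A] (F : A → (B →₀ ℤ)) (z : A →₀ ℤ) (b : B) :
    (lin F z) b = ∑ w, F w b * z w := by
  classical
  unfold lin
  rw [Finsupp.sum_apply, Finsupp.sum_fintype _ _ (by simp)]
  exact Finset.sum_congr rfl fun w _ => by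
    rw [Finsupp.smul_apply, smul_eq_mul, mul_comm]

theorem lin_apply_sub (F : A → (B →₀ ℤ)) (z : A →₀ ℤ) (b : B) (s : Set A) [Fintype s]
    (h : ∀ a ∈ z.support, a ∈ s) : (lin F z) b = ∑ w : s, F w.1 b * z w.1 := by
  classical
  unfold lin
  rw [Finsupp.sum_apply]
  have h1 : ∑ w : s, F w.1 b * z w.1 =
      ∑ w ∈ (Finset.univ : Finset s).map (Function.Embedding.subtype _), F w b * z w := by
    rw [Finset.sum_map]
    rfl
  rw [h1]
  unfold Finsupp.sum
  have h2 : z.support ⊆ (Finset.univ : Finset s).map (Function.Embedding.subtype _) := by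
    intro a ha
    rw [Finset.mem_map]
    exact ⟨⟨a, h a ha⟩, Finset.mem_univ _, rfl⟩
  rw [← Finset.sum_subset h2]
  · refine Finset.sum_congr rfl fun w _ => ?_
    change (z w • F w) b = _
    rw [Finsupp.smul_apply, smul_eq_mul, mul_comm]
  · intro w _ hw
    rw [Finsupp.notMem_support_iff.1 hw, mul_zero]

theorem sum_abs_le_nrm (z : A →₀ ℤ) (s : Set A) [Fintype s] :
    ∑ w : s, |z w.1| ≤ nrm z := by
  classical
  have h1 : ∑ w : s, |z w.1| =
      ∑ w ∈ (Finset.univ : Finset s).map (Function.Embedding.subtype _), |z w| := by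
    rw [Finset.sum_map]
    rfl
  rw [h1, nrm_eq z (z.support ∪ (Finset.univ : Finset s).map (Function.Embedding.subtype _))
    Finset.subset_union_left]
  exact Finset.sum_le_sum_of_subset_of_nonneg Finset.subset_union_right
    fun a _ _ => abs_nonneg _

theorem abs_le_nrm (z : A →₀ ℤ) (a : A) : |z a| ≤ nrm z := by
  classical
  rw [nrm_eq z (insert a z.support) (Finset.subset_insert _ _)]
  exact Finset.single_le_sum (f := fun a => |z a|) (fun a _ => abs_nonneg _)
    (Finset.mem_insert_self _ _)

theorem mapDomain_congr' {f g : A → B} {z : A →₀ ℤ} (h : ∀ a ∈ z.support, f a = g a) :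
    z.mapDomain f = z.mapDomain g := Finsupp.mapDomain_congr h

end general

section gdn

variable {G V : Type} [Group G]

theorem gdn_sub_gd (a : V → G → V) (R : Finset G) (k : ℕ) : Gdn a R k ⊆ Gd a R := by
  cases k with
  | zero => exact fun v hv => hv
  | succ k => exact fun v hv => hv.1

theorem gdn_succ_sub (a : V → G → V) (R : Finset G) (k : ℕ) : Gdn a R (k + 1) ⊆ Gdn a R k := by
  induction k with
  | zero => exact fun v hv => hv.1
  | succ k ih => exact fun v hv => ⟨hv.1, fun h hh => ih (hv.2 h hh)⟩

theorem gdn_anti (a : V → G → V) (R : Finset G) {k l : ℕ} (h : k ≤ l) :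
    Gdn a R l ⊆ Gdn a R k := by
  induction l, h using Nat.le_induction with
  | base => exact fun v hv => hv
  | succ l _ ih => exact fun v hv => ih (gdn_succ_sub a R l hv)

end gdn

section fms

variable {G V : Type} [Group G]

open Classical in
/-- The column of the chain map. -/
noncomputable def fcol (C : Res G) (φ : C.X → (List G →₀ ℤ)) (a : V → G → V) (R : Finset G)
    (c : V → V) (v : V × C.X) : List V →₀ ℤ :=
  if v.1 ∈ Gd a R then (φ v.2).mapDomain (List.map fun g => c (a v.1 g)) else 0

theorem fM_eq (C : Res G) (φ : C.X → (List G →₀ ℤ)) (a : V → G → V) (R S : Finset G)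
    (c : V → V) (n : ℕ) (l : Im a S c n) (v : V × C.X) :
    fM C φ a R S c n l v = fcol C φ a R c v l.1 := by
  unfold fM fcol
  split_ifs <;> rfl

open Classical in
/-- The entries of the chains `φ x`. -/
noncomputable def ents (C : Res G) (φ : C.X → (List G →₀ ℤ)) : Finset G :=
  Finset.univ.biUnion fun x => (φ x).support.biUnion fun l => l.toFinset

theorem mem_ents (C : Res G) (φ : C.X → (List G →₀ ℤ)) (x : C.X) (l : List G)
    (hl : l ∈ (φ x).support) (g : G) (hg : g ∈ l) : g ∈ ents C φ := by
  classical
  unfold ents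
  rw [Finset.mem_biUnion]
  refine ⟨x, Finset.mem_univ _, ?_⟩
  rw [Finset.mem_biUnion]
  exact ⟨l, hl, List.mem_toFinset.2 hg⟩

open Classical in
/-- The quotients of the entries. -/
noncomputable def quots (A : Finset G) : Finset G := (A ×ˢ A).image fun p => p.1⁻¹ * p.2

theorem mem_quots {A : Finset G} {g h : G} (hg : g ∈ A) (hh : h ∈ A) : g⁻¹ * h ∈ quots A := by
  classical
  unfold quots
  rw [Finset.mem_image]
  exact ⟨(g, h), Finset.mem_product.2 ⟨hg, hh⟩, rfl⟩

open Classical in
/-- The group elements in the boundaries. -/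
noncomputable def rowset (C : Res G) : Finset G :=
  Finset.univ.biUnion fun x => (C.row x).support.image Prod.fst

theorem mem_rowset (C : Res G) (x : C.X) (p : G × C.X) (hp : p ∈ (C.row x).support) :
    p.1 ∈ rowset C := by
  classical
  unfold rowset
  rw [Finset.mem_biUnion]
  exact ⟨x, Finset.mem_univ _, Finset.mem_image_of_mem _ hp⟩

theorem row_zero (C : Res G) (x : C.X) (hx : C.dim x = 0) : C.row x = 0 := by
  unfold Res.row
  refine Finset.sum_eq_zero fun y _ => ?_
  have h : C.bd x y = 0 := by
    by_contra hne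
    have := C.bd_dim x y hne
    omega
  rw [h]
  simp

/-- The lists in the column of a good point are simplices of the coarse complex. -/
theorem fcol_supp (C : Res G) (φ : C.X → (List G →₀ ℤ))
    (lφ : ∀ x, ∀ l ∈ (φ x).support, l.length = C.dim x + 1) (n : ℕ) (hn : ∀ x, C.dim x ≤ n)
    (a : V → G → V) (R S : Finset G) (c : V → V) (hA : ents C φ ⊆ R)
    (hQ : quots (ents C φ) ⊆ R) (hS : quots (ents C φ) ⊆ S) (v : V × C.X)
    (hv : v.1 ∈ Gd a R) (l : List V) (hl : l ∈ (fcol C φ a R c v).support) :
    l ∈ Im a S c n := by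
  classical
  unfold fcol at hl
  rw [if_pos hv] at hl
  have h1 := Finsupp.mapDomain_support hl
  rw [Finset.mem_image] at h1
  obtain ⟨gs, hgs, rfl⟩ := h1
  have hlen := lφ v.2 gs hgs
  refine ⟨?_, ?_, gs.map (a v.1), ?_, by rw [List.map_map]; rfl⟩
  · intro h
    rw [List.map_eq_nil_iff] at h
    rw [h] at hlen
    simp at hlen
  · rw [List.length_map, hlen]
    have := hn v.2
    omega
  · intro u hu w hw
    rw [List.mem_map] at hu hw
    obtain ⟨g, hg, rfl⟩ := hu
    obtain ⟨h, hh, rfl⟩ := hw
    have hg' := mem_ents C φ v.2 gs hgs g hg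
    have hh' := mem_ents C φ v.2 gs hgs h hh
    refine ⟨g⁻¹ * h, hS (mem_quots hg' hh'), ?_⟩
    rw [hv.2.1 g (hA hg') _ (hQ (mem_quots hg' hh'))]
    simp

/-- The chain map identity at a good point. -/
theorem fcol_comm (C : Res G) (φ : C.X → (List G →₀ ℤ)) (ψ : List G → (G × C.X →₀ ℤ))
    (θ : C.X → (G × C.X →₀ ℤ)) (hB : BarD C φ ψ θ)
    (a : V → G → V) (R : Finset G) (c : V → V) (hA : ents C φ ⊆ R)
    (hrow : rowset C ⊆ R) (v : V) (x : C.X) (hx : C.dim x ≠ 0) (hv : v ∈ Gdn a R (C.dim x)) :
    lin (fcol C φ a R c) (bet a v (C.row x)) = lin lbd (fcol C φ a R c (v, x)) := by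
  classical
  have hv0 : v ∈ Gd a R := gdn_sub_gd a R _ hv
  obtain ⟨k, hk⟩ := Nat.exists_eq_succ_of_ne_zero hx
  rw [hk] at hv
  have hv1 : ∀ h ∈ R, a v h ∈ Gd a R := fun h hh => gdn_sub_gd a R _ (hv.2 h hh)
  unfold bet
  rw [lin_mapDomain]
  have h1 : lin (fun p : G × C.X => fcol C φ a R c (a v p.1, p.2)) (C.row x) =
      lin (fun p : G × C.X => ((φ p.2).mapDomain (List.map (p.1 * ·))).mapDomain
        (List.map fun g => c (a v g))) (C.row x) := by
    apply lin_congr
    intro p hp
    have hp1 : p.1 ∈ R := hrow (mem_rowset C x p hp)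
    unfold fcol
    rw [if_pos (hv1 p.1 hp1), ← Finsupp.mapDomain_comp]
    apply mapDomain_congr'
    intro gs hgs
    rw [Function.comp, List.map_map]
    apply List.map_congr_left
    intro g hg
    have hg' := hA (mem_ents C φ p.2 gs hgs g hg)
    change c (a (a v p.1) g) = c (a v (p.1 * g))
    rw [hv0.2.1 p.1 hp1 g hg']
  rw [h1, ← mapDomain_lin, ← hB.cφ x hx, mapDomain_lin]
  unfold fcol
  rw [if_pos hv0, lin_mapDomain]
  exact lin_congr fun l _ => (lbd_map _ l).symm

/-- The boundary of the column of a vertex has no nonempty lists. -/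
theorem fcol_zero (C : Res G) (φ : C.X → (List G →₀ ℤ))
    (lφ : ∀ x, ∀ l ∈ (φ x).support, l.length = C.dim x + 1)
    (a : V → G → V) (R : Finset G) (c : V → V) (v : V × C.X) (hx : C.dim v.2 = 0)
    (l : List V) (hl : l ≠ []) : (lin lbd (fcol C φ a R c v)) l = 0 := by
  classical
  unfold lin
  rw [Finsupp.sum_apply]
  refine Finset.sum_eq_zero fun m hm => ?_
  have hm1 : m.length = 1 := by
    unfold fcol at hm
    split_ifs at hm with h
    · have h1 := Finsupp.mapDomain_support hm
      rw [Finset.mem_image] at h1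
      obtain ⟨gs, hgs, rfl⟩ := h1
      rw [List.length_map, lφ v.2 gs hgs, hx]
    · simp at hm
  obtain ⟨u, rfl⟩ := List.length_eq_one_iff.1 hm1
  change ((fcol C φ a R c v) [u] • lbd [u]) l = 0
  rw [Finsupp.smul_apply, lbd_cons, lbd_nil, Finsupp.mapDomain_zero, sub_zero,
    Finsupp.single_eq_of_ne hl, smul_zero]

/-- FMS -/
theorem fms (hsch : SchStmt) (hgdn : GdnStmt) : FmsStmt := by
  classical
  intro G _ C φ ψ θ hB n hn
  refine ⟨quots (ents C φ), fun S Q hS => ?_⟩
  set A := ents C φ with hAdef
  set Ksum : ℤ := ∑ x, nrm (φ x) with hKsum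
  have hKs : 0 ≤ Ksum := Finset.sum_nonneg fun x _ => nrm_nonneg _
  refine ⟨((A.card * Q.card + 1 : ℕ) : ℝ) * Ksum + 1, A ∪ quots A ∪ rowset C, ?_,
    fun R' hR' => ?_⟩
  · have : (0 : ℝ) ≤ Ksum := by exact_mod_cast hKs
    have h2 : (0 : ℝ) ≤ ((A.card * Q.card + 1 : ℕ) : ℝ) := Nat.cast_nonneg _
    nlinarith [mul_nonneg h2 this]
  have hA : A ⊆ R' := (Finset.subset_union_left.trans Finset.subset_union_left).trans hR'
  have hQ : quots A ⊆ R' := (Finset.subset_union_right.trans Finset.subset_union_left).trans hR'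
  have hrow : rowset C ⊆ R' := Finset.subset_union_right.trans hR'
  obtain ⟨⟨M0, hM0⟩, -⟩ := hgdn G R' n
  refine ⟨Fintype.card C.X * M0, ?_⟩
  intro V _ _ a c _ hbij hc
  refine ⟨?_, ?_, ?_⟩
  · -- degrees
    intro l v hne
    have h1 : fM C φ a R' S c n l v ≠ 0 := by
      intro h
      apply hne
      change ((fM C φ a R' S c n l v : ℤ) : ℝ) = 0
      rw [h, Int.cast_zero]
    rw [fM_eq] at h1
    have h2 := Finsupp.mem_support_iff.2 h1
    unfold fcol at h2
    split_ifs at h2 with h
    · have h3 := Finsupp.mapDomain_support h2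
      rw [Finset.mem_image] at h3
      obtain ⟨gs, hgs, h4⟩ := h3
      have h5 := hB.lφ v.2 gs hgs
      have h6 : l.1.length = C.dim v.2 + 1 := by rw [← h4, List.length_map, h5]
      change ((l.1.length - 1 : ℕ) : ℤ) = (C.dim v.2 : ℤ) + 0
      rw [h6]
      simp
    · simp at h2
  · -- norm
    apply hsch
    · -- rows
      intro l
      obtain ⟨w, t, hwt⟩ := List.exists_cons_of_ne_nil l.2.1
      set cand : Finset V := (A ×ˢ Q).biUnion fun p =>
        Finset.univ.filter fun v => a (a v p.1) p.2 = w with hcand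
      have hcard : cand.card ≤ A.card * Q.card := by
        refine Finset.card_biUnion_le.trans ?_
        rw [← Finset.card_product]
        have : ∀ p ∈ A ×ˢ Q, (Finset.univ.filter fun v => a (a v p.1) p.2 = w).card ≤ 1 := by
          intro p _
          rw [Finset.card_le_one]
          intro u hu v hv
          rw [Finset.mem_filter] at hu hv
          have h1 : a (a u p.1) p.2 = a (a v p.1) p.2 := hu.2.trans hv.2.symm
          have h2 := (hbij p.2).1 h1
          exact (hbij p.1).1 h2
        calc ∑ p ∈ A ×ˢ Q, (Finset.univ.filter fun v => a (a v p.1) p.2 = w).card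
            ≤ ∑ p ∈ A ×ˢ Q, 1 := Finset.sum_le_sum this
          _ = (A ×ˢ Q).card := by simp
      have hle : ∀ v : V × C.X, |fM C φ a R' S c n l v| ≤
          if v.1 ∈ cand then nrm (φ v.2) else 0 := by
        intro v
        by_cases h0 : fM C φ a R' S c n l v = 0
        · rw [h0, abs_zero]
          split_ifs
          · exact nrm_nonneg _
          · exact le_rfl
        · rw [fM_eq] at h0 ⊢
          have h2 := Finsupp.mem_support_iff.2 h0
          have h7 : |(fcol C φ a R' c v) l.1| ≤ nrm (φ v.2) := by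
            refine (abs_le_nrm _ _).trans ?_
            unfold fcol
            split_ifs
            · exact nrm_mapDomain_le _ _
            · rw [nrm_zero]
              exact nrm_nonneg _
          unfold fcol at h2
          split_ifs at h2 with h
          · have h3 := Finsupp.mapDomain_support h2
            rw [Finset.mem_image] at h3
            obtain ⟨gs, hgs, h4⟩ := h3
            rw [hwt] at h4
            cases gs with
            | nil => simp at h4
            | cons g gs =>
              rw [List.map_cons, List.cons.injEq] at h4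
              obtain ⟨q, hq, hq2⟩ := hc (a v.1 g)
              have hmem : v.1 ∈ cand := by
                rw [hcand, Finset.mem_biUnion]
                refine ⟨(g, q), Finset.mem_product.2
                  ⟨mem_ents C φ v.2 _ hgs g (by simp), hq⟩, ?_⟩
                rw [Finset.mem_filter]
                exact ⟨Finset.mem_univ _, hq2.symm.trans h4.1⟩
              rw [if_pos hmem]
              exact h7
          · simp at h2
      have hsum : ∑ v : V × C.X, |fM C φ a R' S c n l v| ≤ (A.card * Q.card : ℕ) * Ksum := by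
        refine (Finset.sum_le_sum fun v _ => hle v).trans ?_
        rw [Fintype.sum_prod_type_right, hKsum, Finset.mul_sum]
        refine Finset.sum_le_sum fun x _ => ?_
        rw [← Finset.sum_filter]
        change ∑ _v ∈ Finset.univ.filter (fun v : V => v ∈ cand), nrm (φ x) ≤ _
        rw [Finset.sum_const, nsmul_eq_mul]
        refine mul_le_mul_of_nonneg_right ?_ (nrm_nonneg _)
        have : (Finset.univ.filter fun v : V => v ∈ cand) = cand := by simp
        rw [this]
        exact_mod_cast hcard
      have hreal : ∑ v : V × C.X, |((fM C φ a R' S c n l v : ℤ) : ℝ)| ≤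
          (A.card * Q.card : ℕ) * (Ksum : ℝ) := by exact_mod_cast hsum
      refine hreal.trans ?_
      have h8 : (0 : ℝ) ≤ Ksum := by exact_mod_cast hKs
      push_cast
      nlinarith
    · -- columns
      intro v
      have h1 : ∑ l : Im a S c n, |fM C φ a R' S c n l v| ≤ nrm (φ v.2) := by
        simp only [fM_eq]
        refine (sum_abs_le_nrm _ _).trans ?_
        unfold fcol
        split_ifs
        · exact nrm_mapDomain_le _ _
        · rw [nrm_zero]
          exact nrm_nonneg _
      have h2 : nrm (φ v.2) ≤ Ksum :=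
        Finset.single_le_sum (f := fun x => nrm (φ x)) (fun x _ => nrm_nonneg _)
          (Finset.mem_univ v.2)
      have h3 : ∑ l : Im a S c n, |((fM C φ a R' S c n l v : ℤ) : ℝ)| ≤ (Ksum : ℝ) := by
        exact_mod_cast h1.trans h2
      refine h3.trans ?_
      have h8 : (0 : ℝ) ≤ Ksum := by exact_mod_cast hKs
      have h9 : (0 : ℝ) ≤ ((A.card * Q.card : ℕ) : ℝ) := Nat.cast_nonneg _
      push_cast at h9 ⊢
      nlinarith [mul_nonneg h9 h8]
  · -- the error
    set s : Finset (V × C.X) :=
      (Finset.univ.filter fun v : V => v ∉ Gdn a R' n) ×ˢ Finset.univ with hs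
    refine (rk_cols _ s ?_).trans ?_
    · intro v hv l
      have hv1 : v.1 ∈ Gdn a R' n := by
        by_contra h
        apply hv
        rw [hs, Finset.mem_product]
        exact ⟨Finset.mem_filter.2 ⟨Finset.mem_univ _, h⟩, Finset.mem_univ _⟩
      have hv2 : v.1 ∈ Gdn a R' (C.dim v.2) := gdn_anti a R' (hn v.2) hv1
      have hv0 : v.1 ∈ Gd a R' := gdn_sub_gd a R' _ hv1
      change (((fM C φ a R' S c n * dV C a R' - eM a S c n * fM C φ a R' S c n) l v : ℤ) : ℝ) = 0
      rw [Int.cast_eq_zero, Matrix.sub_apply, sub_eq_zero]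
      have e1 : (fM C φ a R' S c n * dV C a R') l v =
          (lin (fcol C φ a R' c) (bet a v.1 (C.row v.2))) l.1 := by
        rw [Matrix.mul_apply, lin_apply]
        refine Finset.sum_congr rfl fun w _ => ?_
        rw [fM_eq]
        unfold dV
        rw [if_pos hv2]
      have e2 : (eM a S c n * fM C φ a R' S c n) l v =
          (lin lbd (fcol C φ a R' c v)) l.1 := by
        rw [Matrix.mul_apply, lin_apply_sub lbd _ l.1 (Im a S c n)
          (fcol_supp C φ hB.lφ n hn a R' S c hA hQ hS v hv0)]
        refine Finset.sum_congr rfl fun w _ => ?_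
        rw [fM_eq]
        rfl
      rw [e1, e2]
      by_cases hx : C.dim v.2 = 0
      · rw [fcol_zero C φ hB.lφ a R' c v hx l.1 l.2.1, row_zero C v.2 hx]
        unfold bet
        rw [Finsupp.mapDomain_zero, lin_zero]
        rfl
      · rw [fcol_comm C φ ψ θ hB a R' c hA hrow v.1 v.2 hx hv2]
    · rw [hs, Finset.card_product, Finset.card_univ]
      have h1 := hM0 V a hbij
      have h2 : (Finset.univ.filter fun v : V => v ∉ Gdn a R' n).card =
          ((Gdn a R' n)ᶜ).ncard := by
        rw [Set.ncard_eq_toFinset_card']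
        congr 1
        ext v
        simp
      rw [h2]
      calc ((Gdn a R' n)ᶜ).ncard * Fintype.card C.X ≤ (M0 * nb a R') * Fintype.card C.X :=
            Nat.mul_le_mul_right _ h1
        _ = Fintype.card C.X * M0 * nb a R' := by ring

end fms

end Pool.Agent.LT.H74
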